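import Pool.Agent.H595.DL.DL4

set_option autoImplicit false

/-!
# An exact zero-one law for the near algebraic relations of all degrees between `π` and one number

Let `z` be a real number which has a transcendence measure `|P(z)| ≥ c H ^ (-κ)` in each degree, for instance `z = π`,
and let `t` be any complex number, for instance `t = ζ(3)`. We consider near relations `P(z, t)` of size `T`: the
integer polynomial `P` is not zero, its coefficients are at most `exp T`, its degrees are at most `N(T)`, and
`|P(z, t)| ≤ exp (-T ^ w)`. Here `N` is a nondecreasing function which tends to infinity and depends on `z` only (for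
`z = π` there is one fixed function). If `z` and `t` are algebraically dependent then there is such a near relation at
all large `T`. We show that for algebraically independent `z` and `t` the lower logarithmic density of the set of these
sizes `T` is at most `1 / w`, for all `w > 1`. So one single number, the density for one `w > 1`, decides whether `z`
and `t` are algebraically independent, all degrees being treated at once. The bound `1 / w` is the best possible one:
in every interval there is a `t` such that `z` and `t` are algebraically independent and the density is equal to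
`1 / w` for all `w > 1`.

Method. The resultant of two irreducible polynomials of degree at most `N` is an integer polynomial in the first
variable of degree at most `2 N ^ 2`; from the measure of `z` it follows that two irreducible polynomials of sizes
`T ≤ T'` are not both smaller than `exp (-C(N) T')`, where `N = N(T')`, and `N` is chosen such that
`C(N(T)) ≤ log T`. Thus the constants are harmless on this scale. The examples are limits of quickly converging
sequences of rational numbers.
-/

namespace Pool.Agent.Results.MP_a89d6d_nt.ExactLawAllDegrees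

open Filter MeasureTheory Real Polynomial

/-- a transcendence measure in each degree -/
def HasMeasures (z : ℝ) : Prop := ∀ r : ℕ, ∃ κ c : ℝ, 0 < c ∧ ∀ P : ℤ[X], P ≠ 0 → P.natDegree ≤ r →
  ∀ H : ℝ, 1 ≤ H → (∀ i, |(P.coeff i : ℝ)| ≤ H) → c * H ^ (-κ) ≤ |aeval z P|

/-- the value at `(z, t)` of the integer polynomial in two variables with the coefficients `a i j` -/
noncomputable def value {m n : ℕ} (a : Fin (m + 1) → Fin (n + 1) → ℤ) (z t : ℂ) : ℂ :=
  ∑ i, ∑ j, (a i j : ℂ) * z ^ (i : ℕ) * t ^ (j : ℕ)

/-- a near relation of size `T`: some nonzero integer polynomial of degree at most `N T` in each variable with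
coefficients of absolute value at most `exp T` has a value of absolute value at most `exp (-T ^ w)` at `(z, t)` -/
def NearRelation (N : ℝ → ℕ) (z t : ℂ) (w T : ℝ) : Prop :=
  ∃ a : Fin (N T + 1) → Fin (N T + 1) → ℤ, a ≠ 0 ∧ (∀ i j, |(a i j : ℝ)| ≤ exp T) ∧ ‖value a z t‖ ≤ exp (-T ^ w)

/-- the logarithms `y` of the sizes `T = exp y` of the near relations -/
def logSizes (N : ℝ → ℕ) (z t : ℂ) (w : ℝ) : Set ℝ := {y | NearRelation N z t w (exp y)}

/-- the lower density of a set of positive real numbers; for the set of the logarithms of the elements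
of a set of sizes it is the lower logarithmic density of the set of sizes -/
noncomputable def lowerDensity (S : Set ℝ) : ℝ :=
  liminf (fun T : ℝ => (volume (S ∩ Set.Icc 0 T)).toReal / T) atTop

theorem polyM {z : ℝ} (h : HasMeasures z) : Pool.Agent.H595.Alg.PolyM z := by
  intro r
  obtain ⟨κ, c, hc, h1⟩ := h r
  refine ⟨max κ 0, c, le_max_right _ _, hc, fun P h0 hd H hH hP => ?_⟩
  have h2 := h1 P h0 hd H hH hP
  rw [rpow_neg (by linarith), ← div_eq_mul_inv, div_le_iff₀ (by positivity)] at h2
  have h3 : H ^ κ ≤ H ^ (max κ 0) := rpow_le_rpow_of_exponent_le hH (le_max_left _ _)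
  have h4 := mul_le_mul_of_nonneg_right h3 (abs_nonneg (aeval z P))
  linarith

theorem of_polyM {z : ℝ} (h : Pool.Agent.H595.Alg.PolyM z) : HasMeasures z := by
  intro r
  obtain ⟨κ, c, -, hc, h1⟩ := h r
  refine ⟨κ, c, hc, fun P h0 hd H hH hP => ?_⟩
  have h2 := h1 P h0 hd H hH hP
  rw [rpow_neg (by linarith), ← div_eq_mul_inv, div_le_iff₀ (by positivity)]
  linarith

theorem lowerDensity_eq (S : Set ℝ) : lowerDensity S = Pool.Agent.H595.Dens.lowerDensity S := rfl

theorem logSizes_eq (N : ℝ → ℕ) (z t : ℂ) (w : ℝ) : logSizes N z t w = Pool.Agent.H595.DL.dScales N z t w := by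
  ext y
  constructor
  · rintro ⟨a, ha, h1, h2⟩
    refine ⟨Pool.Agent.R523.Gel.toP _ _ a, Pool.Agent.H595.Gel.toP_ne ha,
      fun j => (Pool.Agent.R523.Gel.coeff_le_xd _ j).trans (Pool.Agent.R523.Gel.toP_xd _ _ a),
      Pool.Agent.R523.Gel.toP_natDegree _ _ a, ?_, ?_⟩
    · intro j i
      rw [Pool.Agent.R523.Gel.toP_coeff]
      split_ifs with h
      · exact h1 _ _
      · rw [Int.cast_zero, abs_zero]
        exact (exp_pos _).le
    · rw [Pool.Agent.H595.Gel.val_toP]
      exact h2
  · rintro ⟨P, hP, hm, hn, h1, h2⟩
    refine ⟨_, Pool.Agent.H595.Gel.arr_ne hP hm hn, fun i j => h1 j i, ?_⟩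
    rw [Pool.Agent.H595.Gel.val_arr z t _ _ P hm hn] at h2
    exact h2

theorem law {z : ℝ} (hz : HasMeasures z) : ∃ N : ℝ → ℕ, Monotone N ∧ Tendsto N atTop atTop ∧
    ∀ (t : ℂ) (w : ℝ), 1 < w →
      (lowerDensity (logSizes N z t w) ≤ 1 / w ↔ AlgebraicIndependent ℚ ![(z : ℂ), t]) ∧
      (lowerDensity (logSizes N z t w) = 1 ↔ ¬ AlgebraicIndependent ℚ ![(z : ℂ), t]) := by
  obtain ⟨N, hN1, hN2, h⟩ := Pool.Agent.H595.DL.exists_N (polyM hz)
  refine ⟨N, hN1, hN2, fun t w hw => ?_⟩
  have h1 : 1 / w < 1 := by
    rw [div_lt_one (by linarith)]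
    exact hw
  rw [Pool.Agent.H595.Gel.algInd_iff, lowerDensity_eq, logSizes_eq]
  constructor
  · constructor
    · intro h2
      by_contra h3
      rw [Pool.Agent.H595.DL.rel_one hN2 h3 w] at h2
      linarith
    · intro h2
      exact h t h2 w hw
  · constructor
    · intro h2 h3
      have h4 := h t h3 w hw
      linarith
    · intro h2
      exact Pool.Agent.H595.DL.rel_one hN2 h2 w

/-- **The exact zero-one law.** The number `π` has transcendence measures. Let `z` be a real number with
transcendence measures. There is a nondecreasing function `N` which tends to infinity such that for all complex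
numbers `t` and all `w > 1` the lower logarithmic density of the sizes of the near relations between `z` and `t` is at
most `1 / w`, which is less than one, if and only if `z` and `t` are algebraically independent, and equal to one if
and only if they are algebraically dependent. In every interval there is a `t` such that `z` and `t` are algebraically
independent and the density is equal to `1 / w` for all `w > 1`, and at least `1 / w` for all `w ≥ 1`. For `z = π`
there is a function `N` such that for all `k ≥ 1` the numbers `π` and `ζ(2 k + 1)` are algebraically independent if and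
only if the density is less than one for some `w > 1`. -/
theorem result :
    HasMeasures π ∧
    (∀ z : ℝ, HasMeasures z → ∃ N : ℝ → ℕ, Monotone N ∧ Tendsto N atTop atTop ∧
      (∀ (t : ℂ) (w : ℝ), 1 < w → 1 / w < 1 ∧
        (lowerDensity (logSizes N z t w) ≤ 1 / w ↔ AlgebraicIndependent ℚ ![(z : ℂ), t]) ∧
        (lowerDensity (logSizes N z t w) = 1 ↔ ¬ AlgebraicIndependent ℚ ![(z : ℂ), t])) ∧
      (∀ a b : ℝ, a < b → ∃ t : ℝ, a < t ∧ t < b ∧ AlgebraicIndependent ℚ ![(z : ℂ), (t : ℂ)] ∧
        (∀ w : ℝ, 1 < w → lowerDensity (logSizes N z t w) = 1 / w) ∧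
        (∀ w : ℝ, 1 ≤ w → 1 / w ≤ lowerDensity (logSizes N z t w)))) ∧
    (∃ N : ℝ → ℕ, Monotone N ∧ Tendsto N atTop atTop ∧ ∀ k : ℕ, 1 ≤ k →
      (AlgebraicIndependent ℚ ![(π : ℂ), riemannZeta (2 * k + 1)] ↔
        ∃ w : ℝ, 1 < w ∧ lowerDensity (logSizes N π (riemannZeta (2 * k + 1)) w) < 1)) := by
  have hπ := of_polyM Pool.Agent.H595.Alg.polyM_pi
  refine ⟨hπ, fun z hz => ?_, ?_⟩
  · obtain ⟨N, hN1, hN2, h⟩ := law hz
    refine ⟨N, hN1, hN2, fun t w hw => ⟨?_, h t w hw⟩, fun a b hab => ?_⟩
    · rw [div_lt_one (by linarith)]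
      exact hw
    · obtain ⟨t, h1, h2, h3, h4⟩ := Pool.Agent.H595.DL.exists_indep (polyM hz) hab
      have h5 : AlgebraicIndependent ℚ ![(z : ℂ), (t : ℂ)] := (Pool.Agent.H595.Gel.algInd_iff _ _).2 h3
      have h6 : ∀ w : ℝ, 1 ≤ w → 1 / w ≤ lowerDensity (logSizes N z t w) := fun w hw => by
        rw [lowerDensity_eq, logSizes_eq]
        exact h4 N hN2 w hw
      exact ⟨t, h1, h2, h5, fun w hw => le_antisymm ((h t w hw).1.2 h5) (h6 w hw.le), h6⟩
  · obtain ⟨N, hN1, hN2, h⟩ := law hπ
    refine ⟨N, hN1, hN2, fun k _ => ?_⟩
    constructor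
    · intro h1
      refine ⟨2, by norm_num, lt_of_le_of_lt ((h _ 2 (by norm_num)).1.2 h1) (by norm_num)⟩
    · rintro ⟨w, hw, h1⟩
      by_contra h2
      rw [(h _ w hw).2.2 h2] at h1
      exact lt_irrefl _ h1

end Pool.Agent.Results.MP_a89d6d_nt.ExactLawAllDegrees
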